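import Pool.Agent.helper64.D2.SpecD

/-!
# Project dc: module COR (the core theorem)
-/

set_option autoImplicit false

open Filter Topology
open scoped commutatorElement

namespace Pool.Agent.helper64.D2

/-- The set of oscillations of `u` at scale `t`. -/
def COR_set (u : ℝ → ℝ) (t : ℝ) : Set ℝ := {r | ∃ x y : ℝ, |x - y| ≤ t ∧ r = |u x - u y|}

theorem COR_bdd (u : ℝ → ℝ) (t a : ℝ) (h : ∀ x, |u x| ≤ a) : BddAbove (COR_set u t) := by
  refine ⟨a + a, ?_⟩
  rintro r ⟨x, y, -, rfl⟩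
  calc |u x - u y| ≤ |u x| + |u y| := abs_sub _ _
    _ ≤ a + a := add_le_add (h x) (h y)

theorem COR_loglog (b n : ℕ) (h : 2 ^ n ≤ b ^ 8) (hn : 32 ≤ n) :
    (n : ℝ) / 20 ≤ Real.log (Real.log (1 / (1 / 2 ^ b : ℝ))) := by
  have hl2 : (0.6931471803 : ℝ) < Real.log 2 := Real.log_two_gt_d9
  have hb0 : 0 < b := by
    rcases Nat.eq_zero_or_pos b with h0 | h0
    · rw [h0] at h
      have : 0 < 2 ^ n := by positivity
      omega
    · exact h0
  have hb : (0 : ℝ) < (b : ℝ) := by exact_mod_cast hb0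
  have h1 : (2 : ℝ) ^ n ≤ (b : ℝ) ^ 8 := by exact_mod_cast h
  have h2 : (n : ℝ) * Real.log 2 ≤ 8 * Real.log b := by
    have h3 := Real.log_le_log (by positivity) h1
    rw [Real.log_pow, Real.log_pow] at h3
    exact_mod_cast h3
  have h4 : Real.log (1 / (1 / 2 ^ b : ℝ)) = (b : ℝ) * Real.log 2 := by
    rw [one_div_one_div, Real.log_pow]
  rw [h4, Real.log_mul hb.ne' (by linarith)]
  have h5 : Real.log (1 / 2) ≤ Real.log (Real.log 2) := by
    apply Real.log_le_log (by norm_num)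
    linarith
  have h6 : Real.log (1 / 2 : ℝ) = - Real.log 2 := by
    rw [one_div, Real.log_inv]
  have h7 : (32 : ℝ) ≤ (n : ℝ) := by exact_mod_cast hn
  have hl3 : Real.log 2 < (0.6931471808 : ℝ) := Real.log_two_lt_d9
  nlinarith [mul_le_mul_of_nonneg_left hl2.le (by linarith : (0 : ℝ) ≤ (n : ℝ))]

theorem COR (hTHB : THB_stmt) (hKTH : KTH_stmt) (hBSQ : BSQ_stmt) : COR_stmt := by
  obtain ⟨B0, hB0⟩ := hTHB
  refine ⟨1 / 10000, by norm_num, ?_⟩
  intro f X hf hX hsupp hbd hML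
  obtain ⟨-, hlow, -, hpow, -⟩ := hBSQ (max B0 30) (le_max_right _ _)
  have hgoal : Pi.mulSingle 2 f ∈ K0 := by
    refine hB0 (max B0 30) (le_max_left _ _) f X
      (fun i => sSup (COR_set (d2 X) (1 / 2 ^ (bs (max B0 30) (2 ^ i))))) hf hX hsupp hbd ?_ ?_
    · intro i x y hxy
      exact le_csSup (COR_bdd (d2 X) _ _ hbd) ⟨x, y, hxy, rfl⟩
    · rw [Metric.tendsto_atTop]
      intro e he
      obtain ⟨t0, ht0, ht⟩ := hML (e / 16000) (by positivity)
      obtain ⟨m, hm⟩ := exists_pow_lt_of_lt_one ht0 (show (1 / 2 : ℝ) < 1 by norm_num)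
      refine ⟨max m 5, ?_⟩
      intro i hi
      have hi5 : 5 ≤ i := le_trans (le_max_right _ _) hi
      have him : m ≤ i := le_trans (le_max_left _ _) hi
      have hn : 32 ≤ 2 ^ i := by
        calc 32 = 2 ^ 5 := by norm_num
          _ ≤ 2 ^ i := Nat.pow_le_pow_right (by norm_num) hi5
      have hbm : m ≤ bs (max B0 30) (2 ^ i) := by
        have h1 := hlow (2 ^ i)
        have h2 : i < 2 ^ i := Nat.lt_two_pow_self
        omega
      have htlt : (1 / 2 ^ (bs (max B0 30) (2 ^ i)) : ℝ) < t0 := by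
        calc (1 / 2 ^ (bs (max B0 30) (2 ^ i)) : ℝ) = (1 / 2) ^ (bs (max B0 30) (2 ^ i)) := by
              rw [div_pow, one_pow]
          _ ≤ (1 / 2) ^ m := pow_le_pow_of_le_one (by norm_num) (by norm_num) hbm
          _ < t0 := hm
      have hLL := COR_loglog (bs (max B0 30) (2 ^ i)) (2 ^ i) (hpow (2 ^ i)) hn
      have hT := ht (1 / 2 ^ (bs (max B0 30) (2 ^ i))) (by positivity) htlt
      generalize (1 / 2 ^ (bs (max B0 30) (2 ^ i)) : ℝ) = t at hT hLL ⊢
      have hcast : (((2 ^ i : ℕ) : ℝ)) = 2 ^ i := by push_cast; rfl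
      rw [hcast] at hLL
      have hp2 : (0 : ℝ) < 2 ^ i := by positivity
      have hLL3 : ((2 : ℝ) ^ i / 20) ^ 3 ≤ Real.log (Real.log (1 / t)) ^ 3 :=
        pow_le_pow_left₀ (by positivity) hLL 3
      have h8 : ((2 : ℝ) ^ i / 20) ^ 3 = 8 ^ i / 8000 := by
        rw [div_pow, ← pow_mul, mul_comm i 3, pow_mul]
        norm_num
      rw [h8] at hLL3
      have h8p : (0 : ℝ) < 8 ^ i := by positivity
      have hall : ∀ r ∈ COR_set (d2 X) t, r ≤ √(e / 2 / 8 ^ i) := by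
        rintro r ⟨x, y, hxy, rfl⟩
        have h1 := hT x y hxy
        apply Real.le_sqrt_of_sq_le
        rw [le_div_iff₀ h8p]
        have h2 : |d2 X x - d2 X y| ^ 2 * (8 ^ i / 8000)
            ≤ |d2 X x - d2 X y| ^ 2 * Real.log (Real.log (1 / t)) ^ 3 :=
          mul_le_mul_of_nonneg_left hLL3 (by positivity)
        linarith
      have hw1 : sSup (COR_set (d2 X) t) ≤ √(e / 2 / 8 ^ i) :=
        Real.sSup_le hall (Real.sqrt_nonneg _)
      have hw0 : 0 ≤ sSup (COR_set (d2 X) t) := by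
        apply Real.sSup_nonneg
        rintro r ⟨x, y, -, rfl⟩
        exact abs_nonneg _
      have hw2 : sSup (COR_set (d2 X) t) ^ 2 ≤ e / 2 / 8 ^ i := by
        calc sSup (COR_set (d2 X) t) ^ 2 ≤ √(e / 2 / 8 ^ i) ^ 2 := pow_le_pow_left₀ hw0 hw1 2
          _ = e / 2 / 8 ^ i := Real.sq_sqrt (by positivity)
      rw [Real.dist_eq, sub_zero, abs_of_nonneg (by positivity)]
      rw [le_div_iff₀ h8p] at hw2
      calc 8 ^ i * sSup (COR_set (d2 X) t) ^ 2 = sSup (COR_set (d2 X) t) ^ 2 * 8 ^ i := mul_comm _ _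
        _ ≤ e / 2 := hw2
        _ < e := by linarith
  exact hKTH.2 _ hgoal

end Pool.Agent.helper64.D2
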