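import Pool.Agent.helper64.D2.SpecR

/-!
# Project dc: module RPA (one averaging step with the function `v`)
-/

set_option autoImplicit false

open Filter Topology
open scoped commutatorElement

namespace Pool.Agent.helper64.D2

theorem RPA_mono (g : DD) (a b : ℝ) (h : Sz g a) (hab : a ≤ b) : Sz g b :=
  fun x => (h x).trans hab

theorem RPA_d2_half (X : ℝ → ℝ) (hX : ContDiff ℝ 2 X) (x : ℝ) :
    deriv (fun y => X y / 2) x = deriv X x / 2 ∧ d2 (fun y => X y / 2) x = d2 X x / 2 := by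
  have h1 : deriv (fun y => X y / 2) = fun y => deriv X y / 2 := by
    funext y
    exact deriv_div_const (c := X) (2 : ℝ)
  refine ⟨congrFun h1 x, ?_⟩
  unfold d2
  rw [h1]
  exact deriv_div_const (c := deriv X) (2 : ℝ)

theorem RPA (hSTP : STP_stmt) (hGST : GST_stmt) (hSMA : SMA_stmt) (hDIF : DIF_stmt)
    (hSZC : SZC_stmt) : RPA_stmt := by
  obtain ⟨C, hC1, hT, -⟩ := hSMA
  obtain ⟨hS1, -, hS3, hS4, -⟩ := hSZC
  refine ⟨C, hC1, ?_⟩
  intro R X G p q a L lam θ hR hSH hG hLip ha hL hqθ hθ hCθ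
  obtain ⟨hX, hsupp, hd1, hd2, hp, hpq, hq, hlam0, hlam, ha0⟩ := hSH
  have hCpos : 0 < C := by linarith
  have hθC : |θ| ≤ 1 / C := by
    rw [abs_of_pos hθ, le_div_iff₀ hCpos]
    linarith
  obtain ⟨T, hTev, hTsz⟩ := hT θ hθC
  rw [abs_of_pos hθ] at hTsz
  -- the element `h = id + X / 2`
  have hXhalf : ContDiff ℝ 2 (fun x => X x / 2) := hX.div_const 2
  obtain ⟨h, hh⟩ := hDIF (fun x => X x / 2) hXhalf
    (fun x hx => by
      have h0 : X x = 0 := by
        apply hsupp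
        intro hx2
        exact hx ⟨by linarith [hx2.1], by linarith [hx2.2]⟩
      show X x / 2 = 0
      rw [h0]; norm_num)
    (fun x => by
      rw [(RPA_d2_half X hX x).1, abs_div, abs_of_pos (by norm_num : (0 : ℝ) < 2)]
      have := hd1 x
      linarith)
  obtain ⟨v, X', hv, hX', -, hcX', -, -, hz, hdX', hd2X', hbX', hLipX'⟩ :=
    hSTP X p q a L lam θ hX hsupp hd1 hd2 hLip hlam ha hL hθ.le hpq
  have hTev' : ∀ y ∈ Set.Icc p q, ev T y = y + θ := fun y hy =>
    hTev y ⟨by linarith [hy.1], by linarith [hy.2]⟩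
  have hrep := hGST R T h X v X' θ p q hR hh hX hsupp hpq hTev' hv hX'
  have hRsz : Sz R a := by
    intro x
    rw [(hS1 R X hR).2.2.2 x]
    exact hd2 x
  have hhsz : Sz h (a / 2) := by
    intro x
    rw [(hS1 h _ hh).2.2.2 x, (RPA_d2_half X hX x).2, abs_div,
      abs_of_pos (by norm_num : (0 : ℝ) < 2)]
    have := hd2 x
    linarith
  have hhinv : Sz h⁻¹ a := by
    have h1 := hS4 h (a / 2) hhsz (by linarith)
    exact RPA_mono _ _ _ h1 (by linarith)
  have hx2 : Sz (R * h⁻¹) (3 * a) := by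
    have h1 := hS3 R h⁻¹ a a hRsz hhinv ha ha
    exact RPA_mono _ _ _ h1 (by nlinarith)
  refine ⟨T, R * h⁻¹, X', hrep, ⟨hcX', hz, hbX', hLipX'⟩, hdX', hTsz, hx2, ?_⟩
  intro u
  have hvu : G (Hh X u - θ) = v u := by
    have h1 : Hh X (v u) = Hh X u - θ := by
      unfold Hh
      exact hv u
    rw [← h1]
    exact hG.1 (v u)
  rw [hvu]
  exact hd2X' u

end Pool.Agent.helper64.D2
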